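import Pool.Agent.H870R4.Noz.Stmts

/-!
Task Inv of project H870-NOZ: inversion of `s ↦ s + δ Bf s`.
-/

set_option autoImplicit false

namespace H870N

open Set Metric Filter Topology

namespace InvAux

lemma exp_two_fifths : Real.exp (2 / 5) ≤ 3 / 2 := by
  have h : (Real.exp (2 / 5)) ^ 5 = Real.exp 1 * Real.exp 1 := by
    rw [← Real.exp_nat_mul, ← Real.exp_add]; norm_num
  have h1 := Real.exp_one_lt_d9
  have h0 := Real.exp_pos 1
  by_contra hcon
  push Not at hcon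
  have h2 : (3 / 2 : ℝ) ^ 5 < (Real.exp (2 / 5)) ^ 5 :=
    pow_lt_pow_left₀ hcon (by norm_num) (by norm_num)
  rw [h] at h2
  nlinarith

lemma mem_pos {s : ℂ} (hs : s ∈ crect (1 / 35) 560 (1 / 150)) : 1 / 35 < s.re := hs.1

lemma slit {s : ℂ} (hs : s ∈ crect (1 / 35) 560 (1 / 150)) : s ∈ Complex.slitPlane :=
  Or.inl (by have := mem_pos hs; linarith)

lemma norm_ge {s : ℂ} (hs : s ∈ crect (1 / 35) 560 (1 / 150)) : 1 / 35 < ‖s‖ :=
  lt_of_lt_of_le (mem_pos hs) (Complex.re_le_norm s)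

lemma arg_bd {s : ℂ} (hs : s ∈ crect (1 / 35) 560 (1 / 150)) : |Complex.arg s| ≤ 2 / 5 := by
  have h1 := mem_pos hs
  have hn := norm_ge hs
  have h2 : |Complex.arg s| ≤ Real.pi / 2 := Complex.abs_arg_le_pi_div_two_iff.2 (by linarith)
  have h3 := Real.mul_abs_le_abs_sin h2
  rw [Complex.sin_arg, abs_div, abs_norm] at h3
  have h4 : |s.im| / ‖s‖ ≤ 7 / 30 := by
    rw [div_le_iff₀ (by linarith)]
    have := hs.2.2
    linarith
  have hpi := Real.pi_lt_d2
  have hpi0 := Real.pi_pos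
  have h5 : 2 / Real.pi * |Complex.arg s| ≤ 7 / 30 := h3.trans h4
  rw [div_mul_eq_mul_div, div_le_iff₀ hpi0] at h5
  linarith

lemma Bf_bd {s : ℂ} (hs : s ∈ crect (1 / 35) 560 (1 / 150)) : ‖Bf s‖ ≤ 3 / 2 := by
  unfold Bf
  rw [Complex.norm_exp]
  have h : (Complex.I * Complex.log s).re = - Complex.arg s := by
    simp [Complex.log_im]
  rw [h]
  refine le_trans (Real.exp_le_exp.2 ?_) exp_two_fifths
  have := (abs_le.1 (arg_bd hs)).1
  linarith

lemma Bp_bd {s : ℂ} (hs : s ∈ crect (1 / 35) 560 (1 / 150)) : ‖Bp s‖ ≤ 60 := by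
  unfold Bp
  have hn := norm_ge hs
  have hn0 : 0 < ‖s‖ := by linarith
  rw [norm_mul, Complex.norm_I, one_mul, Complex.norm_exp]
  have h : ((Complex.I - 1) * Complex.log s).re = - Complex.arg s - Real.log ‖s‖ := by
    simp [Complex.log_im, Complex.log_re]
    ring
  rw [h, Real.exp_sub, Real.exp_log hn0]
  have h1 : Real.exp (- Complex.arg s) ≤ 3 / 2 := by
    refine le_trans (Real.exp_le_exp.2 ?_) exp_two_fifths
    have := (abs_le.1 (arg_bd hs)).1
    linarith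
  rw [div_le_iff₀ hn0]
  linarith

lemma Bf_deriv {s : ℂ} (hs : s ∈ crect (1 / 35) 560 (1 / 150)) : HasDerivAt Bf (Bp s) s := by
  have hsl := slit hs
  have hs0 : s ≠ 0 := Complex.slitPlane_ne_zero hsl
  have h1 := ((Complex.hasDerivAt_log hsl).const_mul Complex.I).cexp
  have h2 : Complex.exp (Complex.I * Complex.log s) * (Complex.I * s⁻¹) = Bp s := by
    unfold Bp
    rw [sub_mul, one_mul, Complex.exp_sub, Complex.exp_log hs0]
    ring
  rw [h2] at h1
  exact h1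

lemma conv (L R h : ℝ) : Convex ℝ (crect L R h) := by
  have : crect L R h = (Complex.re ⁻¹' Ioo L R) ∩ (Complex.im ⁻¹' Ioo (-h) h) := by
    ext w
    simp only [crect, mem_setOf_eq, mem_inter_iff, mem_preimage, mem_Ioo, abs_lt]
    tauto
  rw [this]
  exact ((convex_Ioo L R).is_linear_preimage Complex.reLm.isLinear).inter
    ((convex_Ioo (-h) h).is_linear_preimage Complex.imLm.isLinear)

lemma open' (L R h : ℝ) : IsOpen (crect L R h) := by
  have : crect L R h = (Complex.re ⁻¹' Ioo L R) ∩ (Complex.im ⁻¹' Ioo (-h) h) := by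
    ext w
    simp only [crect, mem_setOf_eq, mem_inter_iff, mem_preimage, mem_Ioo, abs_lt]
    tauto
  rw [this]
  exact (isOpen_Ioo.preimage Complex.continuous_re).inter
    (isOpen_Ioo.preimage Complex.continuous_im)

lemma Bf_lip {s t : ℂ} (hs : s ∈ crect (1 / 35) 560 (1 / 150))
    (ht : t ∈ crect (1 / 35) 560 (1 / 150)) : ‖Bf s - Bf t‖ ≤ 60 * ‖s - t‖ :=
  (conv _ _ _).norm_image_sub_le_of_norm_hasDerivWithin_le
    (fun x hx => (Bf_deriv hx).hasDerivWithinAt) (fun x hx => Bp_bd hx) ht hs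

lemma ball_sub {w : ℂ} (hw : w ∈ crect (1 / 32) 550 (1 / 180)) {r : ℝ} (hr : r ≤ 1 / 1000) :
    closedBall w r ⊆ crect (1 / 35) 560 (1 / 150) := by
  intro s hs
  rw [mem_closedBall, dist_eq_norm] at hs
  have h1 := (Complex.abs_re_le_norm (s - w)).trans (hs.trans hr)
  have h2 := (Complex.abs_im_le_norm (s - w)).trans (hs.trans hr)
  rw [Complex.sub_re, abs_le] at h1
  rw [Complex.sub_im, abs_le] at h2
  obtain ⟨a1, a2, a3⟩ := hw
  rw [abs_lt] at a3
  refine ⟨by linarith [h1.1], by linarith [h1.2], ?_⟩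
  rw [abs_lt]
  constructor
  · linarith [h2.1, a3.1]
  · linarith [h2.2, a3.2]

end InvAux

open InvAux in
theorem taskInv : TaskInv := by
  refine ⟨1 / 10000, by norm_num, ?_⟩
  intro δ hδ hδ1
  -- the map
  set F : ℂ → ℂ := fun s => s + δ * Bf s with hF
  have hnδ : ‖(δ : ℂ)‖ = δ := by
    rw [Complex.norm_real, Real.norm_eq_abs, abs_of_pos hδ]
  have happ : ApproximatesLinearOn F (ContinuousLinearMap.id ℂ ℂ)
      (crect (1 / 35) 560 (1 / 150)) (1 / 4) := by
    intro s hs t ht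
    have h1 := Bf_lip hs ht
    have e : F s - F t - (ContinuousLinearMap.id ℂ ℂ) (s - t) = δ * (Bf s - Bf t) := by
      simp only [hF, ContinuousLinearMap.id_apply]; ring
    rw [e, norm_mul, hnδ]
    have h2 : δ * ‖Bf s - Bf t‖ ≤ (1 / 10000) * (60 * ‖s - t‖) :=
      mul_le_mul hδ1 h1 (norm_nonneg _) (by norm_num)
    have h3 : 0 ≤ ‖s - t‖ := norm_nonneg _
    have h4 : (((1 / 4 : NNReal)) : ℝ) = 1 / 4 := by norm_num
    rw [h4]
    linarith
  let R : (ContinuousLinearMap.id ℂ ℂ).NonlinearRightInverse :=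
    ⟨id, 1, fun y => by simp, fun y => by simp⟩
  have hex : ∀ w ∈ crect (1 / 32) 550 (1 / 180), ∃ s ∈ closedBall w (2 * δ), F s = w := by
    intro w hw
    have hsub := ball_sub hw (r := 2 * δ) (by linarith)
    have h := happ.surjOn_closedBall_of_nonlinearRightInverse R (ε := 2 * δ) (b := w)
      (by linarith) hsub
    have hwm : w ∈ closedBall (F w) (((R.nnnorm : ℝ)⁻¹ - ((1 / 4 : NNReal) : ℝ)) * (2 * δ)) := by
      rw [mem_closedBall, dist_eq_norm]
      have e : w - F w = -(δ * Bf w) := by simp only [hF]; ring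
      have hw' : w ∈ crect (1 / 35) 560 (1 / 150) := hsub (mem_closedBall_self (by linarith))
      rw [e, norm_neg, norm_mul, hnδ]
      have h1 := Bf_bd hw'
      have h2 : (((R.nnnorm : ℝ)⁻¹ - ((1 / 4 : NNReal) : ℝ)) * (2 * δ)) = 3 / 2 * δ := by
        have : R.nnnorm = 1 := rfl
        rw [this]
        push_cast
        ring
      rw [h2]
      nlinarith
    obtain ⟨s, hs, hs2⟩ := h hwm
    exact ⟨s, hs, hs2⟩
  choose! σ hσ1 hσ2 using hex
  refine ⟨σ, ?_⟩
  have hmem : ∀ w ∈ crect (1 / 32) 550 (1 / 180), σ w ∈ crect (1 / 35) 560 (1 / 150) :=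
    fun w hw => ball_sub hw (r := 2 * δ) (by linarith) (hσ1 w hw)
  have hlip : ∀ w ∈ crect (1 / 32) 550 (1 / 180), ∀ w' ∈ crect (1 / 32) 550 (1 / 180),
      ‖σ w - σ w'‖ ≤ 2 * ‖w - w'‖ := by
    intro w hw w' hw'
    have h1 := happ _ (hmem w hw) _ (hmem w' hw')
    rw [hσ2 w hw, hσ2 w' hw', ContinuousLinearMap.id_apply] at h1
    have h2 : ‖σ w - σ w'‖ ≤ ‖w - w'‖ + ‖w - w' - (σ w - σ w')‖ := by
      have e : σ w - σ w' = (w - w') - (w - w' - (σ w - σ w')) := by ring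
      calc ‖σ w - σ w'‖ = ‖(w - w') - (w - w' - (σ w - σ w'))‖ := by rw [← e]
        _ ≤ _ := norm_sub_le _ _
    have h4 : (((1 / 4 : NNReal)) : ℝ) = 1 / 4 := by norm_num
    rw [h4] at h1
    have h3 : 0 ≤ ‖w - w'‖ := norm_nonneg _
    linarith
  intro w hw
  have hne : 1 + (δ : ℂ) * Bp (σ w) ≠ 0 := by
    intro h0
    have h1 : ‖(δ : ℂ) * Bp (σ w)‖ ≤ 1 / 2 := by
      rw [norm_mul, hnδ]
      have h2 : δ * ‖Bp (σ w)‖ ≤ (1 / 10000) * 60 :=
        mul_le_mul hδ1 (Bp_bd (hmem w hw)) (norm_nonneg _) (by norm_num)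
      linarith
    have h2 : (δ : ℂ) * Bp (σ w) = -1 := by linear_combination h0
    rw [h2] at h1
    norm_num at h1
  refine ⟨hmem w hw, ?_, hσ2 w hw, hne, ?_⟩
  · have := hσ1 w hw
    rwa [mem_closedBall, dist_eq_norm] at this
  · rw [one_div]
    have hFd : HasDerivAt F (1 + δ * Bp (σ w)) (σ w) :=
      (hasDerivAt_id (σ w)).add ((Bf_deriv (hmem w hw)).const_mul (δ : ℂ))
    have hnhds : crect (1 / 32) 550 (1 / 180) ∈ 𝓝 w := (open' _ _ _).mem_nhds hw
    refine HasDerivAt.of_local_left_inverse ?_ hFd hne ?_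
    · rw [Metric.continuousAt_iff]
      intro ε hε
      obtain ⟨ρ, hρ, hρ2⟩ := Metric.mem_nhds_iff.1 hnhds
      refine ⟨min ρ (ε / 2), lt_min hρ (by linarith), ?_⟩
      intro x hx
      have hx1 : x ∈ crect (1 / 32) 550 (1 / 180) := hρ2 (lt_of_lt_of_le hx (min_le_left _ _))
      have hx2 : dist x w < ε / 2 := lt_of_lt_of_le hx (min_le_right _ _)
      rw [dist_eq_norm] at hx2 ⊢
      have := hlip x hx1 w hw
      linarith
    · filter_upwards [hnhds] with x hx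
      exact hσ2 x hx

end H870N
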